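import Mathlib

set_option autoImplicit false

namespace Pool.Agent.H.MP_97e4cf_co

open Matrix Filter Topology Finset

variable {n : ℕ} (H : Fin n → Fin n → Prop)

def InL (X : Matrix (Fin n) (Fin n) ℝ) : Prop := Xᵀ = X ∧ ∀ i j, ¬ H i j → X i j = 0

def Pp (N : Matrix (Fin n) (Fin n) ℝ) : Prop :=
  ∀ X, InL H X → ∀ u : Fin n → ℝ, u + X *ᵥ (N *ᵥ u) = 0 → u = 0

def Rob (N : Matrix (Fin n) (Fin n) ℝ) : Prop := Nᵀ = N ∧ ∀ᶠ N' in 𝓝 N, N'ᵀ = N' → Pp H N'

variable {H}

lemma Rob.pp {N : Matrix (Fin n) (Fin n) ℝ} (h : Rob H N) : Pp H N := h.2.self_of_nhds h.1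

lemma Rob.pert {N : Matrix (Fin n) (Fin n) ℝ} (h : Rob H N) (Y : Matrix (Fin n) (Fin n) ℝ)
    (hY : Yᵀ = Y) : ∃ ε : ℝ, 0 < ε ∧ Rob H (N + ε • Y) := by
  have hc : Tendsto (fun ε : ℝ => N + ε • Y) (𝓝 0) (𝓝 N) := by
    have : Continuous fun ε : ℝ => N + ε • Y := by fun_prop
    simpa using this.tendsto 0
  have h1 := (hc.eventually h.2.eventually_nhds).filter_mono
    (nhdsWithin_le_nhds (s := Set.Ioi (0 : ℝ)))
  obtain ⟨ε, h2, h3⟩ := (h1.and self_mem_nhdsWithin).exists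
  exact ⟨ε, h3, by rw [transpose_add, transpose_smul, h.1, hY], h2⟩

lemma Rob.neg {N : Matrix (Fin n) (Fin n) ℝ} (h : Rob H N) : Rob H (-N) := by
  refine ⟨by rw [transpose_neg, h.1], ?_⟩
  have hc : Tendsto (fun M : Matrix (Fin n) (Fin n) ℝ => -M) (𝓝 (-N)) (𝓝 N) := by
    simpa using (continuous_neg (G := Matrix (Fin n) (Fin n) ℝ)).tendsto (-N)
  filter_upwards [hc.eventually h.2] with M hM h1 X hX u hu
  refine hM (by rw [transpose_neg, h1]) (-X) ⟨by rw [transpose_neg, hX.1], fun i j hij => ?_⟩ u ?_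
  · simp [hX.2 i j hij]
  · rw [neg_mulVec, neg_mulVec, mulVec_neg, neg_neg]; exact hu

noncomputable def sy (i j : Fin n) (c : ℝ) : Matrix (Fin n) (Fin n) ℝ := single i j c + single j i c

lemma sy_mul (i j : Fin n) (c : ℝ) (v : Fin n → ℝ) (l : Fin n) :
    (sy i j c *ᵥ v) l = (if l = i then c * v j else 0) + if l = j then c * v i else 0 := by
  simp [sy, add_mulVec, single_mulVec, Function.update_apply]

lemma sy_L (hH : ∀ i j, H i j → H j i) {i j : Fin n} (h : H i j) (c : ℝ) : InL H (sy i j c) := by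
  refine ⟨by simp [sy, add_comm], fun a b hab => ?_⟩
  have h1 : ¬ (i = a ∧ j = b) := by rintro ⟨rfl, rfl⟩; exact hab h
  have h2 : ¬ (j = a ∧ i = b) := by rintro ⟨rfl, rfl⟩; exact hab (hH _ _ h)
  simp [sy, single, h1, h2]

lemma noloop {N : Matrix (Fin n) (Fin n) ℝ} (h : Rob H N) (hH : ∀ i j, H i j → H j i)
    (i : Fin n) : ¬ H i i := by
  intro hi
  have key : ∀ M, Rob H M → M i i = 0 := by
    intro M hM
    by_contra h0
    have := hM.pp _ (sy_L hH hi (-1 / (2 * M i i))) (Pi.single i 1) (by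
      funext l
      rw [Pi.add_apply, sy_mul]
      by_cases hl : l = i
      · subst hl; simp; field_simp; ring
      · simp [hl])
    simpa using congrFun this i
  obtain ⟨ε, h1, h2⟩ := h.pert (single i i 1) (by simp)
  have := key _ h2
  simp [key _ h] at this
  exact h1.ne' this

lemma kill0 {N : Matrix (Fin n) (Fin n) ℝ} (h : Rob H N) (hH : ∀ i j, H i j → H j i)
    (T : Finset (Fin n)) (k j : Fin n) (hk : k ∉ T) (hj : j ∉ T) (hkj : k ≠ j) (e : H k j)
    (nb : Fin n → Fin n) (hnb : ∀ i ∈ T, H i (nb i) ∧ nb i ∉ T ∧ nb i ≠ k)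
    (p q : Fin n → ℝ) (p1 : p k = 1) (p0 : ∀ l ∉ T, l ≠ k → p l = 0)
    (q1 : q j = 1) (q0 : ∀ l ∉ T, l ≠ j → q l = 0)
    (pT : ∀ l ∈ T, (N *ᵥ p) l = 0) (qT : ∀ l ∈ T, (N *ᵥ q) l = 0)
    (ha : (N *ᵥ p) k < 0) (hg : (N *ᵥ q) j < 0) : False := by
  classical
  have dot : ∀ (r w : Fin n → ℝ) (a : Fin n), a ∉ T → r a = 1 → (∀ l ∉ T, l ≠ a → r l = 0) →
      (∀ l ∈ T, w l = 0) → r ⬝ᵥ w = w a := by
    intro r w a ha r1 r0 wT
    rw [dotProduct, sum_eq_single a (fun l _ hl => ?_) (by simp), r1, one_mul]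
    by_cases hT : l ∈ T
    · rw [wT l hT, mul_zero]
    · rw [r0 l hT hl, zero_mul]
  have hb : (N *ᵥ q) k = (N *ᵥ p) j := by
    rw [← dot p _ k hk p1 p0 qT, ← dot q _ j hj q1 q0 pT, dotProduct_mulVec, ← mulVec_transpose,
      h.1, dotProduct_comm]
  set α := (N *ᵥ p) k with hα
  set γ := (N *ᵥ q) j with hγ
  set β := (N *ᵥ p) j with hβ
  obtain ⟨c, hc1, hc2⟩ : ∃ c : ℝ, c ^ 2 = α * γ ∧ β - c ≠ 0 := by
    have h1 : 0 < α * γ := mul_pos_of_neg_of_neg ha hg
    have h2 := Real.sqrt_pos.2 h1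
    by_cases h3 : β - √(α * γ) = 0
    · exact ⟨-√(α * γ), by rw [neg_sq, Real.sq_sqrt h1.le], by intro h4; linarith⟩
    · exact ⟨√(α * γ), Real.sq_sqrt h1.le, h3⟩
  set u : Fin n → ℝ := γ • p - c • q with hu
  set v := N *ᵥ u with hv
  have hv' : ∀ l, v l = γ * (N *ᵥ p) l - c * (N *ᵥ q) l := by
    intro l; simp [hv, hu, mulVec_sub, mulVec_smul]
  have vT : ∀ l ∈ T, v l = 0 := fun l hl => by rw [hv', pT l hl, qT l hl]; ring
  have vj : v j = γ * (β - c) := by rw [hv']; ring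
  have vk : v k = -c * (β - c) := by rw [hv', hb]; linear_combination -hc1
  have uk : u k = γ := by simp [hu, p1, q0 k hk hkj]
  have uj : u j = -c := by simp [hu, q1, p0 j hj hkj.symm]
  have u0 : ∀ l ∉ T, l ≠ k → l ≠ j → u l = 0 := fun l h1 h2 h3 => by
    simp [hu, p0 l h1 h2, q0 l h1 h3]
  let z : Fin n → ℝ := fun l => if l ∉ T ∧ l ≠ k ∧ l ≠ j ∧ v l = 0 then 1 else 0
  have zu : z ⬝ᵥ u = 0 := sum_eq_zero fun l _ => by
    simp only [z]
    split_ifs with h1
    · rw [u0 l h1.1 h1.2.1 h1.2.2.1, mul_zero]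
    · simp
  obtain ⟨ε, h1, h2⟩ := h.pert (vecMulVec (Pi.single k 1) z + vecMulVec z (Pi.single k 1))
    (by rw [transpose_add, transpose_vecMulVec, transpose_vecMulVec, add_comm])
  set w := (N + ε • (vecMulVec (Pi.single k 1) z + vecMulVec z (Pi.single k 1))) *ᵥ u with hw
  have hw' : ∀ l, w l = v l + ε * γ * z l := by
    intro l
    simp only [hw, add_mulVec, smul_mulVec, vecMulVec_mulVec, zu, single_one_dotProduct, uk, ← hv]
    simp
    ring
  have wT : ∀ l ∈ T, w l = 0 := fun l hl => by rw [hw', vT l hl]; simp [z, hl]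
  have wj : w j = γ * (β - c) := by rw [hw', vj]; simp [z]
  have wk : w k = -c * (β - c) := by rw [hw', vk]; simp [z]
  have wn : ∀ l ∉ T, l ≠ k → w l ≠ 0 := by
    intro l h3 h4
    by_cases h5 : l = j
    · rw [h5, wj]; exact mul_ne_zero hg.ne hc2
    · rw [hw']
      by_cases h6 : v l = 0
      · simp [z, h3, h4, h5, h6, h1.ne', hg.ne]
      · simp [z, h6]
  have hL : InL H (sy k j (-1 / (β - c)) + ∑ i ∈ T, sy i (nb i) (-u i / w (nb i))) := by
    constructor
    · rw [transpose_add, transpose_sum, (sy_L hH e _).1]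
      congr 1
      exact sum_congr rfl fun i hi => (sy_L hH (hnb i hi).1 _).1
    · intro a b hab
      rw [Matrix.add_apply, Matrix.sum_apply, (sy_L hH e _).2 a b hab, zero_add]
      exact sum_eq_zero fun i hi => (sy_L hH (hnb i hi).1 _).2 a b hab
  have h3 := h2.pp _ hL u (by
    rw [← hw]
    funext l
    rw [add_mulVec, sum_mulVec, Pi.add_apply, Pi.add_apply, Finset.sum_apply, sy_mul]
    have h4 : ∑ i ∈ T, (sy i (nb i) (-u i / w (nb i)) *ᵥ w) l = if l ∈ T then -u l else 0 := by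
      rw [← sum_ite_eq T l (fun i => -u i)]
      refine sum_congr rfl fun i hi => ?_
      rw [sy_mul, wT i hi, div_mul_cancel₀ _ (wn _ (hnb i hi).2.1 (hnb i hi).2.2)]
      simp
    rw [h4, wj, wk]
    by_cases h5 : l ∈ T
    · have h6 : l ≠ k := fun e => hk (e ▸ h5)
      have h7 : l ≠ j := fun e => hj (e ▸ h5)
      simp [h5, h6, h7]
    · by_cases h6 : l = k
      · subst h6; simp [h5, hkj, uk]; field_simp; ring
      · by_cases h7 : l = j
        · subst h7; simp [h5, h6, uj]; field_simp; ring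
        · simp [h5, h6, h7, u0 l h5 h6 h7])
  rw [h3] at uk
  exact hg.ne (by simpa using uk.symm)

lemma kill {N : Matrix (Fin n) (Fin n) ℝ} (h : Rob H N) (hH : ∀ i j, H i j → H j i)
    (T : Finset (Fin n)) (k j : Fin n) (hk : k ∉ T) (hj : j ∉ T) (hkj : k ≠ j) (e : H k j)
    (nb : Fin n → Fin n) (hnb : ∀ i ∈ T, H i (nb i) ∧ nb i ∉ T ∧ nb i ≠ k)
    (p q : Fin n → ℝ) (p1 : p k = 1) (p0 : ∀ l ∉ T, l ≠ k → p l = 0)
    (q1 : q j = 1) (q0 : ∀ l ∉ T, l ≠ j → q l = 0)
    (pT : ∀ l ∈ T, (N *ᵥ p) l = 0) (qT : ∀ l ∈ T, (N *ᵥ q) l = 0)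
    (ha : (N *ᵥ p) k ≤ 0) (hg : (N *ᵥ q) j ≤ 0) : False := by
  obtain ⟨ε, h1, h2⟩ := h.pert (-(single k k 1 + single j j 1)) (by simp)
  have key : ∀ r : Fin n → ℝ, ∀ l, ((N + ε • -(single k k 1 + single j j 1)) *ᵥ r) l =
      (N *ᵥ r) l - ε * ((if l = k then r k else 0) + if l = j then r j else 0) := by
    intro r l
    simp [add_mulVec, smul_mulVec, neg_mulVec, single_mulVec, Function.update_apply]
    split_ifs <;> ring
  refine kill0 h2 hH T k j hk hj hkj e nb hnb p q p1 p0 q1 q0 (fun l hl => ?_) (fun l hl => ?_) ?_ ?_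
  · have h6 : l ≠ k := fun e => hk (e ▸ hl)
    have h7 : l ≠ j := fun e => hj (e ▸ hl)
    rw [key]; simp [pT l hl, h6, h7]
  · have h6 : l ≠ k := fun e => hk (e ▸ hl)
    have h7 : l ≠ j := fun e => hj (e ▸ hl)
    rw [key]; simp [qT l hl, h6, h7]
  · rw [key]; simp [hkj, p1]; linarith
  · rw [key]; simp [hkj.symm, q1]; linarith

lemma edge {N : Matrix (Fin n) (Fin n) ℝ} (h : Rob H N) (hH : ∀ i j, H i j → H j i)
    {i j : Fin n} (e : H i j) : (0 < N i i ∧ N j j < 0) ∨ (N i i < 0 ∧ 0 < N j j) := by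
  have hij : i ≠ j := fun e' => noloop h hH i (e' ▸ e)
  have key : ∀ M, Rob H M → ¬ (M i i ≤ 0 ∧ M j j ≤ 0) := fun M hM hh =>
    kill hM hH ∅ i j (by simp) (by simp) hij e id (by simp) (Pi.single i 1) (Pi.single j 1)
      (by simp) (fun l _ hl => by simp [hl]) (by simp) (fun l _ hl => by simp [hl]) (by simp)
      (by simp) (by simpa using hh.1) (by simpa using hh.2)
  have h1 := key N h
  have h2 := key _ h.neg
  simp only [Matrix.neg_apply, neg_nonpos] at h2
  by_cases h3 : N i i ≤ 0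
  · have h4 : 0 < N j j := by by_contra h5; exact h1 ⟨h3, not_lt.1 h5⟩
    exact Or.inr ⟨by by_contra h5; exact h2 ⟨not_lt.1 h5, h4.le⟩, h4⟩
  · exact Or.inl ⟨not_le.1 h3, by by_contra h5; exact h2 ⟨(not_le.1 h3).le, not_lt.1 h5⟩⟩

def PD (N : Matrix (Fin n) (Fin n) ℝ) (T : Finset (Fin n)) : Prop :=
  ∀ u : Fin n → ℝ, (∀ i ∉ T, u i = 0) → u ≠ 0 → 0 < u ⬝ᵥ N *ᵥ u

lemma PD.solve {N : Matrix (Fin n) (Fin n) ℝ} {T : Finset (Fin n)} (h : PD N T) (w : Fin n → ℝ) :
    ∃ t : Fin n → ℝ, (∀ i ∉ T, t i = 0) ∧ ∀ i ∈ T, (N *ᵥ (w + t)) i = 0 := by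
  classical
  let D : Matrix (Fin n) (Fin n) ℝ := Matrix.of fun i j => if i ∈ T then N i j else (1 : Matrix _ _ ℝ) i j
  have hD : ∀ t i, (D *ᵥ t) i = if i ∈ T then (N *ᵥ t) i else t i := by
    intro t i
    split_ifs with hi
    · simp [D, mulVec, dotProduct, hi]
    · simp [D, mulVec, dotProduct, hi, one_apply]
  have hinj : Function.Injective D.mulVec := by
    intro a b hab
    by_contra hne
    have h0 : D *ᵥ (a - b) = 0 := by rw [mulVec_sub, hab, sub_self]
    have h1 : ∀ i ∉ T, (a - b) i = 0 := fun i hi => by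
      have := congrFun h0 i; rwa [hD, if_neg hi] at this
    have h2 := h _ h1 (sub_ne_zero.2 hne)
    refine h2.ne' (sum_eq_zero fun i _ => ?_)
    by_cases hi : i ∈ T
    · have := congrFun h0 i
      rw [hD, if_pos hi] at this
      rw [this]; simp
    · rw [h1 i hi, zero_mul]
  obtain ⟨t, ht⟩ := mulVec_surjective_iff_isUnit.2 (mulVec_injective_iff_isUnit.1 hinj)
    (fun i => if i ∈ T then -(N *ᵥ w) i else 0)
  refine ⟨t, fun i hi => ?_, fun i hi => ?_⟩
  · have := congrFun ht i; rwa [hD, if_neg hi, if_neg hi] at this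
  · have := congrFun ht i
    rw [hD, if_pos hi, if_pos hi] at this
    rw [mulVec_add, Pi.add_apply, this]; ring

theorem pd {N : Matrix (Fin n) (Fin n) ℝ} (h : Rob H N) (hH : ∀ i j, H i j → H j i)
    (T : Finset (Fin n)) (hT : ∀ i ∈ T, (∃ j, H i j) ∧ 0 < N i i) : PD N T := by
  classical
  induction T using Finset.induction_on with
  | empty => intro u h1 h2; exact absurd (funext fun i => h1 i (by simp)) h2
  | insert k T hk ih =>
    have ih := ih fun i hi => hT i (mem_insert_of_mem hi)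
    have hn : ∀ i, ∃ j, i ∈ insert k T → H i j ∧ j ∉ insert k T ∧ N j j < 0 := by
      intro i
      by_cases hi : i ∈ insert k T
      · obtain ⟨⟨j, hj⟩, h1⟩ := hT i hi
        have h2 : N j j < 0 := by rcases edge h hH hj with h2 | h2 <;> linarith [h2.1, h2.2]
        exact ⟨j, fun _ => ⟨hj, fun h3 => by linarith [(hT j h3).2], h2⟩⟩
      · exact ⟨i, fun h' => absurd h' hi⟩
    choose nb hnb using hn
    obtain ⟨e, hj, hjj⟩ := hnb k (mem_insert_self _ _)
    set j := nb k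
    simp only [mem_insert, not_or] at hj
    obtain ⟨s, s0, sT⟩ := ih.solve (Pi.single k 1)
    obtain ⟨t, t0, tT⟩ := ih.solve (Pi.single j 1)
    have orth : ∀ r w : Fin n → ℝ, (∀ i ∉ T, r i = 0) → (∀ i ∈ T, (N *ᵥ w) i = 0) →
        r ⬝ᵥ N *ᵥ w = 0 ∧ w ⬝ᵥ N *ᵥ r = 0 := by
      intro r w h1 h2
      have h3 : r ⬝ᵥ N *ᵥ w = 0 := sum_eq_zero fun i _ => by
        by_cases hi : i ∈ T
        · rw [h2 i hi, mul_zero]
        · rw [h1 i hi, zero_mul]
      exact ⟨h3, by rw [dotProduct_mulVec, ← mulVec_transpose, h.1, dotProduct_comm, h3]⟩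
    have nn : ∀ r : Fin n → ℝ, (∀ i ∉ T, r i = 0) → 0 ≤ r ⬝ᵥ N *ᵥ r := fun r h1 => by
      by_cases h2 : r = 0
      · simp [h2]
      · exact (ih r h1 h2).le
    have hα : 0 < (N *ᵥ (Pi.single k 1 + s)) k := by
      by_contra hc
      refine kill h hH T k j hk hj.2 (Ne.symm hj.1) e nb (fun i hi => ?_) _ _
        (by simp [s0 k hk]) (fun l h1 h2 => by simp [s0 l h1, h2])
        (by simp [t0 j hj.2]) (fun l h1 h2 => by simp [t0 l h1, h2]) sT tT (not_lt.1 hc) ?_
      · have := hnb i (mem_insert_of_mem hi)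
        simp only [mem_insert, not_or] at this
        exact ⟨this.1, this.2.1.2, this.2.1.1⟩
      · have h1 := (orth t _ t0 tT).1
        have h2 := nn t t0
        have h3 : t ⬝ᵥ N *ᵥ Pi.single j 1 = (N *ᵥ t) j := by
          rw [dotProduct_mulVec, ← mulVec_transpose, h.1, dotProduct_single_one]
        rw [mulVec_add, dotProduct_add, h3] at h1
        rw [mulVec_add, Pi.add_apply]
        have h4 : (N *ᵥ Pi.single j 1) j = N j j := by simp
        linarith
    intro u h1 h2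
    set p := Pi.single k 1 + s with hp
    have h3 : ∀ i ∉ T, (u - u k • p) i = 0 := by
      intro i hi
      by_cases h4 : i = k
      · subst h4; simp [hp, s0 i hi]
      · simp [hp, s0 i hi, h4, h1 i (by simp [h4, hi])]
    have h4 := orth _ p h3 sT
    have h5 : p ⬝ᵥ N *ᵥ p = (N *ᵥ p) k := by
      nth_rewrite 1 [hp]
      rw [add_dotProduct, (orth s p s0 sT).1, single_one_dotProduct, add_zero]
    have h6 : u ⬝ᵥ N *ᵥ u = (u - u k • p) ⬝ᵥ N *ᵥ (u - u k • p) + u k ^ 2 * (N *ᵥ p) k := by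
      obtain ⟨r, hr⟩ : ∃ r, r = u - u k • p := ⟨_, rfl⟩
      rw [← hr] at h4 ⊢
      obtain ⟨a, ha⟩ : ∃ a, a = u k := ⟨_, rfl⟩
      rw [← ha] at hr ⊢
      rw [show u = r + a • p by rw [hr]; simp]
      simp only [mulVec_add, mulVec_smul, add_dotProduct, dotProduct_add, smul_dotProduct,
        dotProduct_smul, h4.1, h4.2, h5, smul_eq_mul]
      ring
    rw [h6]
    by_cases h7 : u k = 0
    · simpa [h7] using ih u (by simpa [h7] using h3) h2
    · have := nn _ h3
      positivity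

lemma qf (C : Matrix (Fin n) (Fin n) ℝ) (x : Fin n → ℝ) : C.toQuadraticForm' x = x ⬝ᵥ C *ᵥ x := by
  simp [Matrix.toQuadraticForm', toLinearMap₂'_apply']

lemma sig_add {C : Matrix (Fin n) (Fin n) ℝ} (hs : Cᵀ = C) (hu : IsUnit C) :
    sigPos C.toQuadraticForm' + sigNeg C.toQuadraticForm' = n := by
  have h := QuadraticForm.sigPos_add_sigNeg_add_radical (Q := C.toQuadraticForm')
  have h1 : C.toQuadraticForm'.radical = ⊥ := by
    rw [eq_bot_iff]
    intro x hx
    obtain ⟨h2, h3⟩ := QuadraticMap.mem_radical_iff'.1 hx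
    have h4 := h3 (C *ᵥ x)
    rw [qf] at h2
    rw [qf, qf, mulVec_add, add_dotProduct, dotProduct_add, dotProduct_add, h2,
      dotProduct_mulVec x, ← mulVec_transpose, hs] at h4
    have h5 : (C *ᵥ x) ⬝ᵥ (C *ᵥ x) = 0 := by linarith
    have h6 := dotProduct_self_eq_zero.1 h5
    exact mulVec_injective_iff_isUnit.2 hu (h6.trans (mulVec_zero C).symm)
  rw [h1] at h
  simpa using h

lemma le_sig {C : Matrix (Fin n) (Fin n) ℝ} (hu : IsUnit C) {T : Finset (Fin n)}
    (h : PD C⁻¹ T) : T.card ≤ sigPos C.toQuadraticForm' := by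
  have hd : IsUnit C.det := (isUnit_iff_isUnit_det C).1 hu
  have hi : Function.Injective (Matrix.toLin' C⁻¹) :=
    mulVec_injective_iff_isUnit.2 (isUnit_nonsing_inv_iff.2 hu)
  have h1 := le_sigPos_of_posDef C.toQuadraticForm'
    (V := (Pi.spanSubset ℝ (T : Set (Fin n))).map (Matrix.toLin' C⁻¹)) (by
      rintro ⟨_, u, hu1, rfl⟩ hx
      have h2 : u ≠ 0 := by rintro rfl; exact hx (by simp)
      have h3 := h u (by simpa using Pi.mem_spanSubset_iff.1 hu1) h2
      rw [QuadraticMap.restrict_apply, qf]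
      simp only [toLin'_apply, mulVec_mulVec, mul_nonsing_inv C hd, one_mulVec]
      rwa [dotProduct_comm])
  rwa [← (Submodule.equivMapOfInjective _ hi _).finrank_eq, Pi.dim_spanSubset,
    Set.ncard_coe_finset] at h1

theorem colour {C : Matrix (Fin n) (Fin n) ℝ} (hs : Cᵀ = C) (hu : IsUnit C) (h : Rob H C⁻¹)
    (hH : ∀ i j, H i j → H j i) : ∃ col : Fin n → Bool, (∀ i j, H i j → col i ≠ col j) ∧
      (univ.filter fun i => col i = true).card = sigPos C.toQuadraticForm' ∧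
      (univ.filter fun i => col i = false).card = sigNeg C.toQuadraticForm' := by
  classical
  let R := univ.filter fun i => (∃ j, H i j) ∧ 0 < C⁻¹ i i
  let B := univ.filter fun i => (∃ j, H i j) ∧ 0 < (-C⁻¹) i i
  have h1 := le_sig hu (pd h hH R fun i hi => (mem_filter.1 hi).2)
  have h2 := le_sig (C := -C) hu.neg (T := B) (by
    rw [Matrix.inv_eq_right_inv (B := -C⁻¹) (by
      rw [neg_mul_neg, mul_nonsing_inv C ((isUnit_iff_isUnit_det C).1 hu)])]
    exact pd h.neg hH B fun i hi => (mem_filter.1 hi).2)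
  have h3 : (-C).toQuadraticForm' = -C.toQuadraticForm' := by
    ext x; simp [qf, neg_mulVec]
  rw [h3, sigPos_neg] at h2
  have h4 := sig_add hs hu
  have h5 : R ⊆ Bᶜ := by
    intro i hi
    simp only [R, B, mem_filter, mem_compl, Matrix.neg_apply] at hi ⊢
    intro h6
    linarith [hi.2.2, h6.2.2]
  obtain ⟨S, h6, h7, h8⟩ := exists_subsuperset_card_eq h5 h1
    (by rw [card_compl, Fintype.card_fin]; omega)
  have h9 : ∀ i j, H i j → 0 < C⁻¹ i i → C⁻¹ j j < 0 → i ∈ S ∧ j ∉ S := by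
    intro i j e a b
    refine ⟨h6 (mem_filter.2 ⟨mem_univ _, ⟨j, e⟩, a⟩), fun hj => ?_⟩
    exact mem_compl.1 (h7 hj) (mem_filter.2 ⟨mem_univ _, ⟨i, hH _ _ e⟩, by simpa using b⟩)
  refine ⟨fun i => decide (i ∈ S), fun i j e => ?_, by simp [h8], ?_⟩
  · rcases edge h hH e with a | a
    · have := h9 i j e a.1 a.2; simp [this.1, this.2]
    · have := h9 j i (hH _ _ e) a.2 a.1; simp [this.1, this.2]
  · have : (univ.filter fun i => decide (i ∈ S) = false) = Sᶜ := by ext; simp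
    rw [this, card_compl, Fintype.card_fin]
    omega

lemma quasi (d : Fin n → ℝ) (hd : ∀ i, d i = 1 ∨ d i = -1) (C : Matrix (Fin n) (Fin n) ℝ)
    (hs : Cᵀ = C) (h : ∀ i j, d i = d j → |C i j - diagonal d i j| < 1 / (n + 1)) : IsUnit C := by
  rw [← mulVec_injective_iff_isUnit]
  intro a b hab
  obtain ⟨v, hv⟩ : ∃ v, v = a - b := ⟨_, rfl⟩
  have h0 : C *ᵥ v = 0 := by rw [hv, mulVec_sub, hab, sub_self]
  have h1 : ∑ i, ∑ j, d i * v i * (C i j * v j) = 0 := sum_eq_zero fun i _ => by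
    rw [← mul_sum]
    have : ∑ j, C i j * v j = 0 := congrFun h0 i
    rw [this, mul_zero]
  have h2 : ∑ i, ∑ j, d j * v j * (C j i * v i) = 0 := by rw [sum_comm]; exact h1
  set δ : ℝ := 1 / (n + 1) with hδ
  have hδ0 : 0 < δ := by positivity
  have h3 : ∀ i j, 2 * (if i = j then v i ^ 2 else 0) - δ * v i ^ 2 - δ * v j ^ 2 ≤
      d i * v i * (C i j * v j) + d j * v j * (C j i * v i) := by
    intro i j
    have e : C j i = C i j := congrFun (congrFun hs i) j
    rw [e]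
    by_cases hij : d i = d j
    · obtain ⟨h4, h5⟩ := abs_lt.1 (h i j hij)
      rw [← hij]
      by_cases e2 : i = j
      · subst e2
        rw [diagonal_apply_eq] at h4 h5
        rcases hd i with h6 | h6 <;> rw [h6] at h4 h5 ⊢ <;> simp <;> nlinarith [sq_nonneg (v i)]
      · rw [diagonal_apply_ne _ e2] at h4 h5
        rcases hd i with h6 | h6 <;> rw [h6] <;> simp [e2] <;>
          nlinarith [mul_nonneg (sub_nonneg.2 h4.le) (sq_nonneg (v i + v j)),
            mul_nonneg (sub_nonneg.2 h5.le) (sq_nonneg (v i - v j)),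
            mul_nonneg (sub_nonneg.2 h4.le) (sq_nonneg (v i - v j)),
            mul_nonneg (sub_nonneg.2 h5.le) (sq_nonneg (v i + v j))]
    · have e2 : i ≠ j := fun e => hij (by rw [e])
      have e3 : d j = -d i := by
        rcases hd i with h6 | h6 <;> rcases hd j with h7 | h7 <;> simp_all
      rw [e3, if_neg e2]
      nlinarith [mul_nonneg hδ0.le (sq_nonneg (v i)), mul_nonneg hδ0.le (sq_nonneg (v j))]
  have h4 := sum_le_sum fun i (_ : i ∈ univ) => sum_le_sum fun j (_ : j ∈ univ) => h3 i j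
  simp only [sum_add_distrib, h1, h2] at h4
  simp only [sum_sub_distrib, ← mul_sum, sum_ite_eq, mem_univ, if_true,
    sum_const, card_univ, Fintype.card_fin, nsmul_eq_mul] at h4
  have h5 : 0 ≤ ∑ i, v i ^ 2 := sum_nonneg fun i _ => sq_nonneg _
  have h6 : δ * (n + 1) = 1 := by rw [hδ]; field_simp
  have h7 : ∑ i, v i ^ 2 = 0 := by nlinarith
  have h8 := (sum_eq_zero_iff_of_nonneg fun i _ => sq_nonneg (v i)).1 h7
  exact sub_eq_zero.1 (hv ▸ funext fun i => pow_eq_zero_iff two_ne_zero |>.1 (h8 i (mem_univ _)))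

lemma rank_iff (C : Matrix (Fin n) (Fin n) ℝ) : C.rank = n ↔ IsUnit C := by
  refine ⟨fun h => ?_, fun h => by simpa using rank_of_isUnit C h⟩
  rw [← mulVec_surjective_iff_isUnit]
  have : LinearMap.range C.mulVecLin = ⊤ :=
    Submodule.eq_top_of_finrank_eq (by simpa [Matrix.rank] using h)
  exact LinearMap.range_eq_top.1 this

end Pool.Agent.H.MP_97e4cf_co
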